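import Pool.Agent.W978.QM.Stm

/-! Project QM, part BR: passage to curried coefficients. -/

set_option autoImplicit false

namespace Pool.Agent.W753.QM

open Pool.Agent.W978.QM

theorem sum_cons {R : Type} [AddCommMonoid R] (n : ℕ) (G : (Fin (n + 1) → Fin 2) → R) :
    ∑ f : Fin (n + 1) → Fin 2, G f =
      ∑ i : Fin 2, ∑ f : Fin n → Fin 2, G (Matrix.vecCons i f) := by
  rw [← (Fin.consEquiv (fun _ : Fin (n + 1) => Fin 2)).sum_comp, Fintype.sum_prod_type]
  rfl

theorem sum_four {R : Type} [AddCommMonoid R] (G : (Fin 4 → Fin 2) → R) :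
    ∑ f : Fin 4 → Fin 2, G f =
      ∑ i : Fin 2, ∑ j : Fin 2, ∑ k : Fin 2, ∑ l : Fin 2, G ![i, j, k, l] := by
  rw [sum_cons]
  refine Finset.sum_congr rfl fun i _ => ?_
  rw [sum_cons]
  refine Finset.sum_congr rfl fun j _ => ?_
  rw [sum_cons]
  refine Finset.sum_congr rfl fun k _ => ?_
  rw [sum_cons]
  refine Finset.sum_congr rfl fun l _ => ?_
  rw [Fintype.sum_unique]
  congr 1

theorem br : S_BR := by
  intro R _ a σ P
  unfold qf cf
  rw [← (Equiv.arrowCongr σ (Equiv.refl (Fin 2))).sum_comp, sum_four]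
  refine Finset.sum_congr rfl fun i _ => ?_
  refine Finset.sum_congr rfl fun j _ => ?_
  refine Finset.sum_congr rfl fun k _ => ?_
  refine Finset.sum_congr rfl fun l _ => ?_
  rw [← Equiv.prod_comp σ]
  simp only [Equiv.arrowCongr_apply, Function.comp_apply, Equiv.refl_apply,
    Equiv.symm_apply_apply]
  rw [Fin.prod_univ_four]
  unfold cu
  simp only [← mul_assoc]
  rfl

end Pool.Agent.W753.QM
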